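import Pool.Agent.TH707.EA.Defs
import Pool.Agent.W274.AMAMV

/-!
# The verifier of the Arthur-Merlin game with keys
-/

set_option autoImplicit false

namespace Pool.Agent.TH707.EA

open Pool.Agent.NPC Pool.Agent.H622R2
open Pool.Agent.H620R2.Gauge
open Pool.Agent.W900.RB
open Pool.Agent.W900.SP (poly_u1 poly_u2)
open Pool.Agent.W886.AM
open Pool.Agent.W274.AMAMV

/-- the questions -/
def Qk (z : List Bool) : List (List Bool) :=
  Qv z ++ (List.range (3 * nz z)).map (fun j => ky (nz z) j)

theorem poly_Qk : Poly Qk := by
  have hn : UPoly (fun z : List Bool => nz z) := upoly_nz Poly.id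
  have hn2 : UPoly (fun y : List Bool × ℕ => nz y.1) := upoly_nz (Poly.fst Poly.id)
  have h3n2 : UPoly (fun y : List Bool × ℕ => 3 * nz y.1) := UPoly.mul (UPoly.const 3) hn2
  have hreg : ∀ {f : List Bool × ℕ → List Bool}, Poly f →
      Poly (fun y : List Bool × ℕ => reg (nz y.1) (f y)) := by
    intro f hf
    unfold reg
    exact Poly.append (poly_rep hn2) (Poly.cons (NPC.Poly.const false) hf)
  unfold Qk
  refine Poly.append poly_Qv ?_
  have h4 : UPoly (fun y : List Bool × ℕ => min y.2 (3 * nz y.1)) :=
    UPoly.of_le (Poly.min (Poly.snd Poly.id) h3n2.toPoly) h3n2 (fun y => min_le_right _ _)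
  have h5 : Poly (fun z : List Bool => (List.range (3 * nz z)).map
      (fun j => ky (nz z) (min j (3 * nz z)))) := by
    refine NPC.Poly.map (F := fun (z : List Bool) j => ky (nz z) (min j (3 * nz z)))
      (UPoly.mul (UPoly.const 3) hn).range ?_
    unfold ky
    exact hreg (Poly.cons (NPC.Poly.const false) (Poly.cons (NPC.Poly.const false) (poly_rep h4)))
  refine h5.congr fun z => ?_
  apply List.map_congr_left
  intro r hr
  rw [List.mem_range] at hr
  rw [min_eq_left hr.le]

theorem length_Qv (w u x : List Bool) : (Qv (pairBits w (pairBits u x))).length =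
    2 * x.length + x.length * (3 * x.length) := by
  unfold Qv nz
  simp only [unpair_pairBits, List.length_append, List.length_map, List.length_range]

/-- the answers -/
theorem Qk_getD (A : Oracle) (w u x : List Bool) (j : ℕ) :
    (j < 2 * x.length → ((Qk (pairBits w (pairBits u x))).map A).getD j false =
      A (mk x.length j)) ∧
    (∀ r, r < x.length → j < 3 * x.length →
      ((Qk (pairBits w (pairBits u x))).map A).getD
        (2 * x.length + (r * (3 * x.length) + j)) false = A (bl x.length (w.take r) u j)) ∧
    (j < 3 * x.length → ((Qk (pairBits w (pairBits u x))).map A).getD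
        (2 * x.length + (x.length * (3 * x.length) + j)) false = A (ky x.length j)) := by
  have hl := length_Qv w u x
  have hz : nz (pairBits w (pairBits u x)) = x.length := by
    unfold nz
    simp only [unpair_pairBits]
  have h0 := Qv_getD A w u x j
  refine ⟨fun h => ?_, fun r hr h => ?_, fun h => ?_⟩
  · rw [← h0.1 h]
    unfold Qk
    rw [List.map_append, List.getD_append _ _ _ _ (by rw [List.length_map, hl]; omega)]
  · rw [← h0.2 r hr h]
    have h1 : r * (3 * x.length) + j < x.length * (3 * x.length) := by
      have h2 : (r + 1) * (3 * x.length) ≤ x.length * (3 * x.length) :=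
        Nat.mul_le_mul_right _ hr
      rw [Nat.add_mul, Nat.one_mul] at h2
      omega
    unfold Qk
    rw [List.map_append, List.getD_append _ _ _ _ (by rw [List.length_map, hl]; omega)]
  · unfold Qk
    rw [List.map_append, List.getD_append_right _ _ _ _ (by rw [List.length_map, hl]; omega)]
    have h5 : 2 * x.length + (x.length * (3 * x.length) + j) -
        (List.map A (Qv (pairBits w (pairBits u x)))).length = j := by
      rw [List.length_map, hl]
      omega
    rw [h5, hz, List.getD_eq_getElem _ _ (by simpa using h)]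
    simp

/-- the decision -/
def Hk (N₀ : ℕ) (y : List Bool × List Bool) : List Bool :=
  if nz y.1 < N₀ then []
  else if (unpair (unpair y.1).2).2.all (fun b => b) = true then
    (if (List.range (nz y.1)).all (fun j => y.2.getD j false) = true then
      (if ra (nz y.1) y.2 < nz y.1 then
        (if (unpair (unpair y.1).2).1.length = nz y.1 then
          (if (List.range (3 * nz y.1)).all (fun j => decide (y.2.getD
            (2 * nz y.1 + (ra (nz y.1) y.2 * (3 * nz y.1) + j)) false =
            y.2.getD (2 * nz y.1 + (nz y.1 * (3 * nz y.1) + j)) false)) = true then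
            [true] else []) else []) else []) else []) else []

theorem poly_Hk (N₀ : ℕ) : Poly (Hk N₀) := by
  have hx : Poly (fun y : List Bool × List Bool => (unpair (unpair y.1).2).2) :=
    poly_u2 (poly_u2 (Poly.fst Poly.id))
  have hu : Poly (fun y : List Bool × List Bool => (unpair (unpair y.1).2).1) :=
    poly_u1 (poly_u2 (Poly.fst Poly.id))
  have hn : UPoly (fun y : List Bool × List Bool => nz y.1) := upoly_nz (Poly.fst Poly.id)
  have hn2 : UPoly (fun y : (List Bool × List Bool) × ℕ => nz y.1.1) :=
    upoly_nz (Poly.fst (Poly.fst Poly.id))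
  have hra : Poly (fun y : List Bool × List Bool => ra (nz y.1) y.2) := poly_ra Poly.id
  have hra2 : Poly (fun y : (List Bool × List Bool) × ℕ => ra (nz y.1.1) y.1.2) :=
    poly_ra (f := fun y : (List Bool × List Bool) × ℕ => y.1) (Poly.fst Poly.id)
  have h3 : UPoly (fun y : List Bool × List Bool => 3 * nz y.1) := UPoly.mul (UPoly.const 3) hn
  unfold Hk
  refine Poly.ite (Poly.decide_lt hn.toPoly (NPC.Poly.const _)) (NPC.Poly.const _) ?_
  refine Poly.ite (Poly.decide_bool (Poly.all (p := fun (_ : List Bool × List Bool) b => b) hx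
    (Poly.snd Poly.id))) ?_ (NPC.Poly.const _)
  refine Poly.ite (Poly.decide_bool (Poly.all (p := fun (y : List Bool × List Bool) j =>
    y.2.getD j false) hn.range (Poly.getD (Poly.snd (Poly.fst Poly.id)) (Poly.snd Poly.id)
      (NPC.Poly.const false)))) ?_ (NPC.Poly.const _)
  refine Poly.ite (Poly.decide_lt hra hn.toPoly) ?_ (NPC.Poly.const _)
  refine Poly.ite (Poly.decide_eq (Poly.length hu) hn.toPoly) ?_ (NPC.Poly.const _)
  refine Poly.ite (Poly.decide_bool (Poly.all (p := fun (y : List Bool × List Bool) j =>
    decide (y.2.getD (2 * nz y.1 + (ra (nz y.1) y.2 * (3 * nz y.1) + j)) false =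
      y.2.getD (2 * nz y.1 + (nz y.1 * (3 * nz y.1) + j)) false)) h3.range ?_))
    (NPC.Poly.const _) (NPC.Poly.const _)
  refine Poly.decide_eq (Poly.getD (Poly.snd (Poly.fst Poly.id)) ?_ (NPC.Poly.const false))
    (Poly.getD (Poly.snd (Poly.fst Poly.id)) ?_ (NPC.Poly.const false))
  · refine Poly.add (Poly.mul (NPC.Poly.const 2) hn2.toPoly) (Poly.add (Poly.mul hra2
      (Poly.mul (NPC.Poly.const 3) hn2.toPoly)) (Poly.snd Poly.id))
  · refine Poly.add (Poly.mul (NPC.Poly.const 2) hn2.toPoly) (Poly.add (Poly.mul hn2.toPoly
      (Poly.mul (NPC.Poly.const 3) hn2.toPoly)) (Poly.snd Poly.id))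

/-- the verifier -/
def Vk (A : Oracle) (N₀ : ℕ) (z : List Bool) : List Bool := Hk N₀ (z, (Qk z).map A)

theorem Vk_fp (A : Oracle) (N₀ : ℕ) : IsFP A (Vk A N₀) := IsFP.tt poly_Qk (poly_Hk N₀)

theorem rak_eq (A : Oracle) (w u x : List Bool) :
    ra x.length ((Qk (pairBits w (pairBits u x))).map A) = rr A x.length := by
  unfold ra rr
  congr 2
  apply List.map_congr_left
  intro j hj
  rw [List.mem_range] at hj
  exact (Qk_getD A w u x (x.length + j)).1 (by omega)

/-- **The verifier.** -/
theorem amvK (A : Oracle) (N₀ : ℕ) : ∃ V : List Bool → List Bool, IsFP A V ∧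
    ∀ w y x : List Bool, (V (pairBits w (pairBits y x)) = [true] ↔ N₀ ≤ x.length ∧
      x = List.replicate x.length true ∧ Marked A x.length ∧ rr A x.length < x.length ∧
      AnsK A x.length (w.take (rr A x.length)) y) := by
  refine ⟨Vk A N₀, Vk_fp A N₀, fun w y x => ?_⟩
  have hall : x.all (fun b => b) = true ↔ x = List.replicate x.length true := by
    rw [List.all_eq_true, List.eq_replicate_iff]
    exact ⟨fun h => ⟨rfl, h⟩, fun h => h.2⟩
  have hm : (List.range x.length).all (fun j =>
      ((Qk (pairBits w (pairBits y x))).map A).getD j false) = true ↔ Marked A x.length := by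
    rw [List.all_eq_true]
    unfold Marked
    constructor
    · intro h j hj
      rw [← (Qk_getD A w y x j).1 (by omega)]
      exact h j (List.mem_range.2 hj)
    · intro h j hj
      rw [List.mem_range] at hj
      rw [(Qk_getD A w y x j).1 (by omega)]
      exact h j hj
  have ha : rr A x.length < x.length → ((List.range (3 * x.length)).all (fun j =>
      decide (((Qk (pairBits w (pairBits y x))).map A).getD
        (2 * x.length + (rr A x.length * (3 * x.length) + j)) false =
        ((Qk (pairBits w (pairBits y x))).map A).getD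
        (2 * x.length + (x.length * (3 * x.length) + j)) false)) = true ↔
      ∀ j < 3 * x.length, A (bl x.length (w.take (rr A x.length)) y j) = A (ky x.length j)) := by
    intro hr
    rw [List.all_eq_true]
    constructor
    · intro h j hj
      rw [← (Qk_getD A w y x j).2.1 _ hr hj, ← (Qk_getD A w y x j).2.2 hj]
      exact of_decide_eq_true (h j (List.mem_range.2 hj))
    · intro h j hj
      rw [List.mem_range] at hj
      rw [(Qk_getD A w y x j).2.1 _ hr hj, (Qk_getD A w y x j).2.2 hj]
      exact decide_eq_true (h j hj)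
  have hz : nz (pairBits w (pairBits y x)) = x.length := by
    unfold nz
    simp only [unpair_pairBits]
  unfold Vk Hk AnsK
  simp only [hz]
  simp only [unpair_pairBits, rak_eq]
  constructor
  · intro h
    split_ifs at h with h1 h2 h3 h4 h5 h6
    exact ⟨by omega, hall.1 h2, hm.1 h3, h4, h5, (ha h4).1 h6⟩
  · rintro ⟨h1, h2, h3, h4, h5, h6⟩
    rw [if_neg (by omega), if_pos (hall.2 h2), if_pos (hm.2 h3), if_pos h4, if_pos h5,
      if_pos ((ha h4).2 h6)]

end Pool.Agent.TH707.EA
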