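import Pool.Agent.W886.AM.Stm0

/-!
# Separating `AM` and `MA` near an arbitrary oracle: the objects

An answer to a challenge is a block of bits of the oracle which is equal to a key that stands at a
fixed place of the region.
-/

set_option autoImplicit false

namespace Pool.Agent.TH707.EA

open Pool.Agent.NPC Pool.Agent.H620R2.Gauge Pool.Agent.W900.RB Pool.Agent.W886.AM

/-- the place of the bit `j` of the key of the region `n` -/
def ky (n j : ℕ) : List Bool := reg n (false :: false :: List.replicate j true)

/-- the message `u` of length `n` answers the challenge `w`: the block for `w` and `u` is the key -/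
def AnsK (A : Oracle) (n : ℕ) (w u : List Bool) : Prop :=
  u.length = n ∧ ∀ j < 3 * n, A (bl n w u j) = A (ky n j)

/-- the challenge `w` has an answer -/
def WitK (A : Oracle) (n : ℕ) (w : List Bool) : Prop := ∃ u, AnsK A n w u

/-- the part of the region after the marker, for the partial table `t` of answers to the challenges
of length `r` -/
def contK (B : Oracle) (n r : ℕ) (t : List Bool → Option (List Bool)) : List Bool → Bool
  | false :: z => if z = List.replicate z.length true ∧ z.length < 2 * n then
      decide (z.length < n + r) else B (reg n (false :: z))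
  | true :: z => if t (z.take r) = some ((z.drop r).take n) ∧ r + n ≤ z.length ∧
      z.length < r + n + 3 * n ∧ z.drop (r + n) = List.replicate (z.length - (r + n)) true then
      B (ky n (z.length - (r + n))) else B (reg n (true :: z))
  | [] => B (reg n [])

open Classical in
/-- the oracle with the marker with number `r` and the table `t` in the region `n` -/
noncomputable def setK (B : Oracle) (n r : ℕ) (t : List Bool → Option (List Bool)) : Oracle :=
  fun y => if h : y ∈ Region n then contK B n r t h.choose else B y

open Classical in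
/-- the oracle with the key `κ` in the region `n` -/
noncomputable def keyO (B : Oracle) (n : ℕ) (κ : Fin (3 * n) → Bool) : Oracle :=
  fun y => if h : ∃ j : Fin (3 * n), y = ky n j then κ h.choose else B y

/-- there are no answers by chance -/
def CleanK (B : Oracle) (n : ℕ) : Prop :=
  ∀ r ≤ n, ∀ w u : List Bool, w.length = r → u.length = n →
    ∃ j < 3 * n, B (bl n w u j) ≠ B (ky n j)

/-- The task of a stage: the region `n` has a marker, a key and a table on which the Merlin-Arthur
machine `M` (messages and random strings bounded by `P`) is wrong. -/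
def WMK (M : Alg) (P : Polynomial ℕ) (n : ℕ) (A : Oracle) : Prop :=
  ∃ r, r < n ∧ Marked A n ∧ rr A n = r ∧
    (((∀ w : List Bool, w.length = r → WitK A n w) ∧
      ∀ y : List Bool, y.length ≤ P.eval n →
        3 * Nat.card {ω : Fin (P.eval n) → Bool //
          M.out A (pairBits (List.ofFn ω) (pairBits y (List.replicate n true))) = some [true]} <
          2 * 2 ^ P.eval n) ∨
    (3 * Nat.card {w : Fin r → Bool // WitK A n (List.ofFn w)} ≤ 2 ^ r ∧
      ∃ y : List Bool, y.length ≤ P.eval n ∧
        2 ^ P.eval n < 3 * Nat.card {ω : Fin (P.eval n) → Bool //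
          M.out A (pairBits (List.ofFn ω) (pairBits y (List.replicate n true))) = some [true]}))

/-- the key stands at different places -/
theorem ky_inj {n j j' : ℕ} (h : ky n j = ky n j') : j = j' := by
  unfold ky at h
  have h1 := (reg_inj h).2
  simp only [List.cons.injEq, true_and] at h1
  simpa using congrArg List.length h1

/-- the blocks do not meet the key -/
theorem bl_ne_ky (n : ℕ) (w u : List Bool) (j j' : ℕ) : bl n w u j ≠ ky n j' := by
  intro h
  unfold bl ky at h
  have h1 := (reg_inj h).2
  simp at h1

theorem keyO_ky (B : Oracle) {n : ℕ} (κ : Fin (3 * n) → Bool) (j : Fin (3 * n)) :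
    keyO B n κ (ky n j) = κ j := by
  unfold keyO
  have h : ∃ j' : Fin (3 * n), ky n j = ky n j' := ⟨j, rfl⟩
  rw [dif_pos h]
  congr 1
  exact Fin.ext (ky_inj h.choose_spec.symm)

theorem keyO_bl (B : Oracle) {n : ℕ} (κ : Fin (3 * n) → Bool) (w u : List Bool) (j : ℕ) :
    keyO B n κ (bl n w u j) = B (bl n w u j) := by
  unfold keyO
  rw [dif_neg]
  rintro ⟨j', h⟩
  exact bl_ne_ky n w u j j' h

theorem keyO_off (B : Oracle) {n : ℕ} (κ : Fin (3 * n) → Bool) {y : List Bool}
    (h : y ∉ Region n) : keyO B n κ y = B y := by
  unfold keyO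
  rw [dif_neg]
  rintro ⟨j', rfl⟩
  exact h (reg_mem n _)

theorem keyO_diff (B : Oracle) (n : ℕ) (κ : Fin (3 * n) → Bool) :
    {y | B y ≠ keyO B n κ y} ⊆ (fun j : Fin (3 * n) => ky n j) '' Set.univ := by
  intro y hy
  by_contra h
  apply hy
  unfold keyO
  rw [dif_neg]
  rintro ⟨j, rfl⟩
  exact h ⟨j, Set.mem_univ _, rfl⟩

theorem keyO_finite (B : Oracle) (n : ℕ) (κ : Fin (3 * n) → Bool) :
    {y | B y ≠ keyO B n κ y}.Finite :=
  (Set.finite_univ.image _).subset (keyO_diff B n κ)

theorem keyO_card (B : Oracle) (n : ℕ) (κ : Fin (3 * n) → Bool) :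
    {y | B y ≠ keyO B n κ y}.ncard ≤ 3 * n := by
  refine (Set.ncard_le_ncard (keyO_diff B n κ) (Set.finite_univ.image _)).trans ?_
  refine (Set.ncard_image_le Set.finite_univ).trans (le_of_eq ?_)
  rw [Set.ncard_univ, Nat.card_eq_fintype_card, Fintype.card_fin]

/-- **Some key is not in the oracle by chance.** -/
theorem exists_key (B : Oracle) {n : ℕ} (hn : 3 ≤ n) :
    ∃ κ : Fin (3 * n) → Bool, CleanK (keyO B n κ) n := by
  classical
  by_contra hno
  push Not at hno
  unfold CleanK at hno
  push Not at hno
  choose r hr w u hw hu hk using hno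
  obtain ⟨V, hV1, hV2⟩ := exists_short n
  have h1 : (Finset.univ : Finset (Fin (3 * n) → Bool)).card ≤ (V ×ˢ V).card := by
    refine Finset.card_le_card_of_injOn (fun κ => (w κ, u κ)) ?_ ?_
    · intro κ _
      rw [Finset.mem_coe, Finset.mem_product]
      exact ⟨hV2 _ ((hw κ).le.trans (hr κ)), hV2 _ (hu κ).le⟩
    · intro κ _ κ' _ h
      rw [Prod.mk.injEq] at h
      funext j
      have h2 := hk κ j j.2
      have h3 := hk κ' j j.2
      rw [keyO_ky, keyO_bl] at h2 h3
      rw [← h2, ← h3, h.1, h.2]
  rw [Finset.card_univ, Finset.card_product] at h1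
  have h2 : Fintype.card (Fin (3 * n) → Bool) = 2 ^ (3 * n) := by simp
  rw [h2] at h1
  have h3 : V.card * V.card ≤ 2 ^ (n + 1) * 2 ^ (n + 1) := Nat.mul_le_mul hV1 hV1
  have h4 : 2 ^ (n + 1) * 2 ^ (n + 1) < 2 ^ (3 * n) := by
    rw [← pow_add]
    exact Nat.pow_lt_pow_right (by norm_num) (by omega)
  omega

end Pool.Agent.TH707.EA
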