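import Pool.Agent.TH707.EA.Task
import Pool.Agent.TH707.EA.Amv
import Pool.Agent.W538.AM.Stg
import Pool.Agent.W886.AM.Asm

/-!
# `AM` and `MA` near an arbitrary oracle
-/

set_option autoImplicit false

namespace Pool.Agent.TH707.EA

open Pool.Agent.NPC Pool.Agent.H622R2 Pool.Agent.H620R2.Gauge Pool.Agent.W900.RB
open Pool.Agent.W895.MA Pool.Agent.W886.AM
open Pool.Agent.W900.CH (Close finite_diff)
open Filter

/-- a language in `AM` and not in `MA` -/
theorem sepK {O A : Oracle} {N₀ : ℕ} (hN₀ : ∀ n ≥ N₀, ¬ Marked O n) {u : ℕ → Alg × Polynomial ℕ}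
    (hu : Function.Surjective u) {n : ℕ → ℕ} (hn : StrictMono n) (hnN : ∀ k, N₀ ≤ n k)
    (hoff : ∀ y, (∀ k, y ∉ Region (n k)) → A y = O y)
    (hW : ∀ k, WMK (u k).1 (u k).2 (n k) A) : ∃ L, IsAM A L ∧ ¬ IsMA A L := by
  classical
  refine ⟨{x | ∃ k, x = List.replicate (n k) true ∧
    ∀ w : List Bool, w.length = rr A (n k) → WitK A (n k) w}, ?_, ?_⟩
  · obtain ⟨V, hV, hVs⟩ := amvK A N₀
    refine ⟨V, Polynomial.X, hV, fun x => ?_⟩
    rw [Polynomial.eval_X]
    by_cases hx : ∃ k, x = List.replicate (n k) true
    · obtain ⟨k, rfl⟩ := hx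
      obtain ⟨r, hr, hmark, hrr, hcase⟩ := hW k
      have hmem : (List.replicate (n k) true ∈ {x | ∃ k, x = List.replicate (n k) true ∧
          ∀ w : List Bool, w.length = rr A (n k) → WitK A (n k) w}) ↔
          ∀ w : List Bool, w.length = rr A (n k) → WitK A (n k) w := by
        constructor
        · rintro ⟨k', h5, h6⟩
          have h7 : n k' = n k := by
            have := congrArg List.length h5
            simpa using this.symm
          rw [← hn.injective h7]
          exact h6
        · intro h
          exact ⟨k, rfl, h⟩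
      rw [hmem, hrr]
      have hVx : ∀ w : List Bool, (∃ y : List Bool, y.length ≤ (List.replicate (n k) true).length ∧
          V (pairBits w (pairBits y (List.replicate (n k) true))) = [true]) ↔
          WitK A (n k) (w.take r) := by
        intro w
        constructor
        · rintro ⟨y, -, h5⟩
          have h6 := ((hVs w y _).1 h5).2.2.2.2
          rw [List.length_replicate, hrr] at h6
          exact ⟨y, h6⟩
        · rintro ⟨y, h5⟩
          refine ⟨y, by rw [List.length_replicate]; exact h5.1.le, ?_⟩
          rw [hVs]
          rw [List.length_replicate, hrr]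
          exact ⟨hnN k, rfl, hmark, hr, h5⟩
      have hpr : amPr V (List.replicate (n k) true).length (List.replicate (n k) true) =
          (Nat.card {w : Fin r → Bool // WitK A (n k) (List.ofFn w)} : ℝ) / 2 ^ r := by
        unfold amPr
        have h5 : Nat.card {w : Fin (List.replicate (n k) true).length → Bool //
            ∃ y : List Bool, y.length ≤ (List.replicate (n k) true).length ∧
              V (pairBits (List.ofFn w) (pairBits y (List.replicate (n k) true))) = [true]} =
            Nat.card {w : Fin (List.replicate (n k) true).length → Bool //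
              WitK A (n k) ((List.ofFn w).take r)} := by
          apply Nat.card_congr
          exact Equiv.subtypeEquivRight fun w => hVx _
        have hl : (List.replicate (n k) true).length = n k := List.length_replicate
        rw [h5, card_prefix (fun v => WitK A (n k) v) (r := r) (by rw [hl]; exact hr.le)]
        push_cast
        have h6 : (2 : ℝ) ^ (List.replicate (n k) true).length =
            2 ^ ((List.replicate (n k) true).length - r) * 2 ^ r := by
          rw [← pow_add]
          congr 1
          rw [hl]
          omega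
        rw [h6]
        field_simp
      rw [hpr]
      constructor
      · intro h5
        have h6 : Nat.card {w : Fin r → Bool // WitK A (n k) (List.ofFn w)} = 2 ^ r := by
          have h7 : ∀ w : Fin r → Bool, WitK A (n k) (List.ofFn w) := fun w => h5 _ (by simp)
          rw [Nat.card_congr (Equiv.subtypeUnivEquiv h7), Nat.card_eq_fintype_card,
            Fintype.card_fun, Fintype.card_bool, Fintype.card_fin]
        rw [h6]
        push_cast
        rw [div_self (by positivity)]
        norm_num
      · intro h5
        rcases hcase with h6 | h6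
        · exact absurd h6.1 h5
        · rw [div_le_iff₀ (by positivity)]
          have h7 : (3 : ℝ) * (Nat.card {w : Fin r → Bool // WitK A (n k) (List.ofFn w)} : ℝ) ≤
              2 ^ r := by exact_mod_cast h6.1
          linarith
    · have hno : ∀ w y : List Bool, V (pairBits w (pairBits y x)) ≠ [true] := by
        intro w y h5
        obtain ⟨h6, h7, h8, -⟩ := (hVs w y x).1 h5
        apply hN₀ x.length h6
        intro j hj
        rw [← hoff]
        · exact h8 j hj
        · intro k hk
          apply hx
          refine ⟨k, ?_⟩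
          rw [← region_inj (reg_mem x.length _) hk]
          exact h7
      constructor
      · rintro ⟨k, hk, -⟩
        exact absurd ⟨k, hk⟩ hx
      · intro _
        have h5 : amPr V x.length x = 0 := by
          unfold amPr
          have h6 : IsEmpty {w : Fin x.length → Bool // ∃ y : List Bool, y.length ≤ x.length ∧
              V (pairBits (List.ofFn w) (pairBits y x)) = [true]} := by
            constructor
            rintro ⟨w, y, -, h7⟩
            exact hno _ _ h7
          rw [Nat.card_eq_zero.2 (Or.inl h6)]
          simp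
        rw [h5]
        norm_num
  · rintro ⟨V, p, ⟨M, hM⟩, hV⟩
    obtain ⟨k, hk⟩ := hu (M, p)
    obtain ⟨r, hr, hmark, hrr, hcase⟩ := hW k
    rw [hk] at hcase
    dsimp only at hcase
    have hacc : ∀ y : List Bool, accPr V (p.eval (List.replicate (n k) true).length)
        (pairBits y (List.replicate (n k) true)) =
        (Nat.card {ω : Fin (p.eval (n k)) → Bool // M.out A (pairBits (List.ofFn ω)
          (pairBits y (List.replicate (n k) true))) = some [true]} : ℝ) / 2 ^ p.eval (n k) := by
      intro y
      unfold accPr
      rw [List.length_replicate]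
      congr 2
      apply Nat.card_congr
      refine Equiv.subtypeEquivRight fun w => ?_
      rw [hM, Option.some.injEq]
    have h5 := hV (List.replicate (n k) true)
    have hpos : (0 : ℝ) < 2 ^ p.eval (n k) := by positivity
    rcases hcase with ⟨h6, h7⟩ | ⟨h6, y, h7, h8⟩
    · obtain ⟨y, h8, h9⟩ := h5.1 ⟨k, rfl, by rw [hrr]; exact h6⟩
      rw [List.length_replicate] at h8
      rw [hacc, div_le_div_iff₀ (by norm_num) hpos] at h9
      have h10 : (3 : ℝ) * (Nat.card {ω : Fin (p.eval (n k)) → Bool //
          M.out A (pairBits (List.ofFn ω) (pairBits y (List.replicate (n k) true))) =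
            some [true]} : ℝ) < 2 * 2 ^ p.eval (n k) := by exact_mod_cast h7 y h8
      linarith
    · have h9 : List.replicate (n k) true ∉ {x | ∃ k, x = List.replicate (n k) true ∧
          ∀ w : List Bool, w.length = rr A (n k) → WitK A (n k) w} := by
        rintro ⟨k', h10, h11⟩
        have h12 : n k' = n k := by
          have := congrArg List.length h10
          simpa using this.symm
        rw [hn.injective h12, hrr] at h11
        have h13 : Nat.card {w : Fin r → Bool // WitK A (n k) (List.ofFn w)} = 2 ^ r := by
          have h14 : ∀ w : Fin r → Bool, WitK A (n k) (List.ofFn w) := fun w => h11 _ (by simp)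
          rw [Nat.card_congr (Equiv.subtypeUnivEquiv h14), Nat.card_eq_fintype_card,
            Fintype.card_fun, Fintype.card_bool, Fintype.card_fin]
        rw [h13] at h6
        have : 0 < 2 ^ r := by positivity
        omega
      have h10 := h5.2 h9 y (by rw [List.length_replicate]; exact h7)
      rw [hacc, div_le_div_iff₀ hpos (by norm_num)] at h10
      have h11 : (2 : ℝ) ^ p.eval (n k) < 3 * (Nat.card {ω : Fin (p.eval (n k)) → Bool //
          M.out A (pairBits (List.ofFn ω) (pairBits y (List.replicate (n k) true))) =
            some [true]} : ℝ) := by exact_mod_cast h8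
      linarith

open Classical in
/-- the markers are removed -/
noncomputable def off (O : Oracle) : Oracle := fun y => if ∃ n, y = mk n 0 then false else O y

theorem not_marked_off (O : Oracle) {n : ℕ} (hn : 1 ≤ n) : ¬ Marked (off O) n := by
  intro h
  have h1 := h 0 (by omega)
  unfold off at h1
  rw [if_pos ⟨n, rfl⟩] at h1
  exact Bool.noConfusion h1

theorem dist_off (O : Oracle) (m : ℕ) : Pool.Agent.W900.CH.dist O (off O) m ≤ m := by
  unfold Pool.Agent.W900.CH.dist
  have hsub : {x : List Bool | x.length ≤ m ∧ off O x ≠ O x} ⊆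
      (fun n => mk n 0) '' (Set.Iio m) := by
    rintro x ⟨h1, h2⟩
    unfold off at h2
    split_ifs at h2 with h3
    · obtain ⟨n, rfl⟩ := h3
      refine ⟨n, ?_, rfl⟩
      unfold Pool.Agent.W900.RB.mk at h1
      rw [length_reg] at h1
      simp only [List.length_cons] at h1
      exact Set.mem_Iio.2 (by omega)
    · exact absurd rfl h2
  refine (Set.ncard_le_ncard hsub ((Set.finite_Iio _).image _)).trans ?_
  refine (Set.ncard_image_le (Set.finite_Iio _)).trans (le_of_eq ?_)
  rw [← Finset.coe_Iio, Set.ncard_coe_finset, Nat.card_Iio]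

theorem dist_add (O B A : Oracle) (m : ℕ) : Pool.Agent.W900.CH.dist O A m ≤
    Pool.Agent.W900.CH.dist O B m + Pool.Agent.W900.CH.dist B A m := by
  unfold Pool.Agent.W900.CH.dist
  refine (Set.ncard_le_ncard (t := {x : List Bool | x.length ≤ m ∧ B x ≠ O x} ∪
    {x : List Bool | x.length ≤ m ∧ A x ≠ B x}) ?_
    ((finite_diff O B m).union (finite_diff B A m))).trans (Set.ncard_union_le _ _)
  rintro x ⟨h1, h2⟩
  by_cases h3 : B x = O x
  · right
    exact ⟨h1, by rw [h3]; exact h2⟩
  · left
    exact ⟨h1, h3⟩

theorem super_sub {g : ℕ → ℝ} (hg : Super g) (h2 : ∀ᶠ n : ℕ in atTop, 2 * (n : ℝ) ≤ g n) :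
    Super (fun n => g n - n) := by
  intro c
  obtain ⟨N, hN⟩ := eventually_atTop.1 h2
  refine ((hg (c + 1)).and_eventually (eventually_ge_atTop (max N 2))).mono ?_
  rintro n ⟨h3, h4⟩ m hm
  have h5 : N ≤ n := (le_max_left _ _).trans h4
  have h6 : 2 ≤ n := (le_max_right _ _).trans h4
  have h7 := h3 m hm
  have h8 := hN m (h5.trans hm)
  have h9 : (2 : ℝ) * (n : ℝ) ^ c ≤ (n : ℝ) ^ (c + 1) := by
    rw [pow_succ, mul_comm]
    exact mul_le_mul_of_nonneg_left (by exact_mod_cast h6) (by positivity)
  dsimp only
  linarith

/-- **Many changes: near every oracle, `AM` is not in `MA`.** -/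
theorem many_every {g : ℕ → ℝ} (h2 : ∀ᶠ n : ℕ in atTop, 2 * (n : ℝ) ≤ g n)
    (hg : ¬ ∃ c : ℕ, ∀ᶠ n : ℕ in atTop, ∃ m ≥ n, g m ≤ (n : ℝ) ^ c) (O : Oracle) :
    ∃ A : Oracle, Close g O A ∧ ∃ L, IsAM A L ∧ ¬ IsMA A L := by
  have hs : Super g := by
    by_contra hs
    unfold Super at hs
    push Not at hs
    exact hg hs
  have h1 := CC.poly_countable
  obtain ⟨al, hal⟩ := exists_alg
  have h3 : Countable Alg := inferInstance
  have h4 : Nonempty (Alg × Polynomial ℕ) := ⟨(al 0, 0)⟩
  obtain ⟨u, hu⟩ := exists_surjective_nat (Alg × Polynomial ℕ)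
  choose cost b hT using fun k => taskK (u k).1 (u k).2
  obtain ⟨A, n, hn, hnN, hclose, hoff, hW⟩ := Pool.Agent.W538.AM.task (fun n => g n - n)
    (super_sub hs h2) (off O) (fun k n A => WMK (u k).1 (u k).2 n A) cost b 1 (fun k => by
      filter_upwards [hT k] with n h5 B _
      exact h5 B)
  refine ⟨A, ?_, sepK (fun n hn => not_marked_off O hn) hu hn hnN hoff hW⟩
  unfold Close at hclose ⊢
  filter_upwards [hclose] with m hm
  have h5 := dist_add O (off O) A m
  have h6 := dist_off O m
  have h7 : (Pool.Agent.W900.CH.dist O A m : ℝ) ≤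
      m + Pool.Agent.W900.CH.dist (off O) A m := by exact_mod_cast h5.trans (by omega)
  linarith

end Pool.Agent.TH707.EA
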