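import Pool.Agent.TH707.EA.Defs
import Pool.Agent.W918.AMSETT

/-!
# The oracle with a marker and a table of answers, for any oracle with a key
-/

set_option autoImplicit false
set_option linter.all false

namespace Pool.Agent.TH707.EA

open Pool.Agent.NPC Pool.Agent.H620R2.Gauge Pool.Agent.W900.RB Pool.Agent.W886.AM

theorem contK_false (B : Oracle) (n r : ℕ) (t : List Bool → Option (List Bool)) (z : List Bool) :
    contK B n r t (false :: z) = if z = List.replicate z.length true ∧ z.length < 2 * n then
      decide (z.length < n + r) else B (reg n (false :: z)) := rfl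

theorem contK_true (B : Oracle) (n r : ℕ) (t : List Bool → Option (List Bool)) (z : List Bool) :
    contK B n r t (true :: z) =
      if t (z.take r) = some ((z.drop r).take n) ∧ r + n ≤ z.length ∧
      z.length < r + n + 3 * n ∧ z.drop (r + n) = List.replicate (z.length - (r + n)) true then
      B (ky n (z.length - (r + n))) else B (reg n (true :: z)) := rfl

theorem setK_reg (B : Oracle) (n r : ℕ) (t : List Bool → Option (List Bool)) (z : List Bool) :
    setK B n r t (reg n z) = contK B n r t z := by
  have h : reg n z ∈ Region n := reg_mem n z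
  unfold setK
  rw [dif_pos h]
  congr 1
  exact (rep_inj' h.choose_spec).2.symm

theorem setK_off (B : Oracle) (n r : ℕ) (t : List Bool → Option (List Bool)) (y : List Bool)
    (h : y ∉ Region n) : setK B n r t y = B y := by
  unfold setK
  rw [dif_neg h]

theorem setK_mk (B : Oracle) {n : ℕ} (r : ℕ) (t : List Bool → Option (List Bool)) {j : ℕ}
    (h : j < 2 * n) : setK B n r t (mk n j) = decide (j < n + r) := by
  unfold mk
  rw [setK_reg, contK_false, if_pos]
  · simp
  · simp only [List.length_replicate, true_and]
    exact h

theorem marked_setK (B : Oracle) (n r : ℕ) (t : List Bool → Option (List Bool)) :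
    Marked (setK B n r t) n := by
  intro j hj
  rw [setK_mk B r t (by omega)]
  simp
  omega

theorem rr_setK (B : Oracle) {n r : ℕ} (t : List Bool → Option (List Bool)) (hr : r ≤ n) :
    rr (setK B n r t) n = r := by
  unfold rr
  have h1 : (List.range n).map (fun j => setK B n r t (mk n (n + j))) =
      (List.range n).map (fun j => decide (j < r)) := by
    apply List.map_congr_left
    intro j hj
    rw [List.mem_range] at hj
    rw [setK_mk B r t (by omega)]
    apply decide_eq_decide.2
    omega
  rw [h1]
  have h2 : ∀ m : ℕ, (((List.range m).map (fun j => decide (j < r))).filter (fun b => b)).length =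
      min m r := by
    intro m
    induction m with
    | zero => simp
    | succ m ih =>
      rw [List.range_succ, List.map_append, List.filter_append, List.length_append, ih]
      by_cases h : m < r
      · simp [h]
        omega
      · simp [h]
        omega
  rw [h2]
  omega

/-- The value on the strings of the blocks. -/
theorem setK_bl (B : Oracle) (n r : ℕ) (t : List Bool → Option (List Bool)) (w u : List Bool)
    (j : ℕ) (hw : w.length = r) (hu : u.length = n) (hj : j < 3 * n) :
    setK B n r t (bl n w u j) = if t w = some u then B (ky n j) else B (bl n w u j) := by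
  obtain ⟨h1, h2, h3, h4⟩ := Pool.Agent.W918.AMSETT.comp n w u j hu
  subst hw
  have hb : bl n w u j = reg n (true :: (w ++ (u ++ List.replicate j true))) := rfl
  rw [hb, setK_reg, contK_true, h1, h2, h3, h4]
  have h5 : w.length + n + j - (w.length + n) = j := by omega
  rw [h5]
  by_cases ht : t w = some u
  · rw [if_pos ⟨ht, by omega, by omega, rfl⟩, if_pos ht]
  · rw [if_neg (fun h => ht h.1), if_neg ht]

theorem setK_diff (B : Oracle) (n r : ℕ) (t : List Bool → Option (List Bool)) :
    {y | B y ≠ setK B n r t y} ⊆ (fun j => mk n j) '' (Set.Iio (2 * n)) ∪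
      (fun s : (Fin r → Bool) × Fin (3 * n) =>
        bl n (List.ofFn s.1) ((t (List.ofFn s.1)).getD []) s.2) '' Set.univ := by
  intro y hy
  by_cases h : y ∈ Region n
  · obtain ⟨z, rfl⟩ := h
    change B (reg n z) ≠ setK B n r t (reg n z) at hy
    rw [setK_reg] at hy
    rcases z with _ | ⟨_ | _, z⟩
    · exact absurd rfl hy
    · left
      rw [contK_false] at hy
      split_ifs at hy with h1
      · refine ⟨z.length, h1.2, ?_⟩
        show reg n (false :: List.replicate z.length true) = _
        rw [← h1.1]
        rfl
      · exact absurd rfl hy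
    · right
      rw [contK_true] at hy
      split_ifs at hy with h1
      · obtain ⟨h2, h3, h4, h5⟩ := h1
        obtain ⟨h6, h7, h8⟩ := Pool.Agent.W918.AMSETT.decomp n r z h3 h5
        refine ⟨(fun i => (z.take r).get (i.cast h6.symm), ⟨z.length - (r + n), by omega⟩),
          Set.mem_univ _, ?_⟩
        have h9 : List.ofFn (fun i : Fin r => (z.take r).get (i.cast h6.symm)) = z.take r := by
          apply List.ext_get
          · simp only [List.length_ofFn]
            exact h6.symm
          · intro i hi1 hi2
            simp
        show bl n (List.ofFn (fun i : Fin r => (z.take r).get (i.cast h6.symm)))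
          ((t (List.ofFn (fun i : Fin r => (z.take r).get (i.cast h6.symm)))).getD [])
          (z.length - (r + n)) = _
        rw [h9, h2]
        exact h8.symm
      · exact absurd rfl hy
  · exact absurd (setK_off B n r t y h).symm hy

theorem setK_finite (B : Oracle) (n r : ℕ) (t : List Bool → Option (List Bool)) :
    {y | B y ≠ setK B n r t y}.Finite :=
  (((Set.finite_Iio _).image _).union (Set.finite_univ.image _)).subset (setK_diff B n r t)

theorem setK_card (B : Oracle) (n r : ℕ) (t : List Bool → Option (List Bool)) :
    {y | B y ≠ setK B n r t y}.ncard ≤ 2 * n + 3 * n * 2 ^ r := by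
  refine (Set.ncard_le_ncard (setK_diff B n r t)
    (((Set.finite_Iio _).image _).union (Set.finite_univ.image _))).trans ?_
  refine (Set.ncard_union_le _ _).trans (Nat.add_le_add ?_ ?_)
  · refine (Set.ncard_image_le (Set.finite_Iio _)).trans (le_of_eq ?_)
    rw [← Finset.coe_Iio, Set.ncard_coe_finset, Nat.card_Iio]
  · refine (Set.ncard_image_le Set.finite_univ).trans (le_of_eq ?_)
    rw [Set.ncard_univ, Nat.card_eq_fintype_card, Fintype.card_prod,
      Fintype.card_fun, Fintype.card_bool, Fintype.card_fin, Fintype.card_fin, Nat.mul_comm]

theorem setK_two (B : Oracle) (n r : ℕ) (t t' : List Bool → Option (List Bool)) (y : List Bool)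
    (hy : setK B n r t y ≠ setK B n r t' y) : ∃ (w u : List Bool) (j : ℕ), w.length = r ∧
        u.length = n ∧ y = bl n w u j ∧ (t w = some u ∧ t' w ≠ some u ∨ t' w = some u ∧
          t w ≠ some u) := by
  by_cases h : y ∈ Region n
  · obtain ⟨z, rfl⟩ := h
    change setK B n r t (reg n z) ≠ setK B n r t' (reg n z) at hy
    rw [setK_reg, setK_reg] at hy
    rcases z with _ | ⟨_ | _, z⟩
    · exact absurd rfl hy
    · exact absurd rfl hy
    · rw [contK_true, contK_true] at hy
      by_cases hc : r + n ≤ z.length ∧
        z.length < r + n + 3 * n ∧ z.drop (r + n) = List.replicate (z.length - (r + n)) true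
      · obtain ⟨h6, h7, h8⟩ := Pool.Agent.W918.AMSETT.decomp n r z hc.1 hc.2.2
        refine ⟨z.take r, (z.drop r).take n, z.length - (r + n), h6, h7, h8, ?_⟩
        by_cases h1 : t (z.take r) = some ((z.drop r).take n)
        · by_cases h2 : t' (z.take r) = some ((z.drop r).take n)
          · exfalso
            apply hy
            rw [if_pos ⟨h1, hc⟩, if_pos ⟨h2, hc⟩]
          · exact Or.inl ⟨h1, h2⟩
        · by_cases h2 : t' (z.take r) = some ((z.drop r).take n)
          · exact Or.inr ⟨h2, h1⟩
          · exfalso
            apply hy
            rw [if_neg (fun h => h1 h.1), if_neg (fun h => h2 h.1)]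
      · exfalso
        apply hy
        rw [if_neg (fun h => hc h.2), if_neg (fun h => hc h.2)]
  · exfalso
    apply hy
    rw [setK_off B n r t y h, setK_off B n r t' y h]

/-- the key is kept -/
theorem setK_ky (B : Oracle) (n r : ℕ) (t : List Bool → Option (List Bool)) (j : ℕ) :
    setK B n r t (ky n j) = B (ky n j) := by
  unfold ky
  rw [setK_reg, contK_false, if_neg]
  rintro ⟨h, -⟩
  simp [List.replicate_succ] at h

/-- answers are made -/
theorem ansK_of (B : Oracle) (n r : ℕ) (t : List Bool → Option (List Bool)) (w u : List Bool)
    (hw : w.length = r) (ht : t w = some u) (hu : u.length = n) : AnsK (setK B n r t) n w u := by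
  refine ⟨hu, fun j hj => ?_⟩
  rw [setK_bl B n r t w u j hw hu hj, if_pos ht, setK_ky]

/-- there are no other answers -/
theorem of_ansK {B : Oracle} {n r : ℕ} (hr : r ≤ n) {t : List Bool → Option (List Bool)}
    (hcl : CleanK B n) {w u : List Bool} (hw : w.length = r) (hans : AnsK (setK B n r t) n w u) :
    t w = some u := by
  by_contra ht
  obtain ⟨hu, hans⟩ := hans
  obtain ⟨j, hj, hB⟩ := hcl r hr w u hw hu
  have h1 := hans j hj
  rw [setK_bl B n r t w u j hw hu hj, if_neg ht, setK_ky] at h1
  exact hB h1

end Pool.Agent.TH707.EA
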