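import Pool.Agent.TH707.EA.Sett
import Pool.Agent.W822.AMTASK
import Pool.Agent.W585.AMCORE

/-!
# The stage for an arbitrary oracle
-/

set_option autoImplicit false

namespace Pool.Agent.TH707.EA

open Filter
open Pool.Agent.NPC Pool.Agent.H620R2.Gauge Pool.Agent.W900.RB Pool.Agent.W886.AM

open Pool.Agent.W822.AMTASK (inp inp_len tl tl_ofFn exists_ofFn bl_inj poly_mono)

/-- the properties of the oracle `setK` -/
theorem settK (B : Oracle) (n r : ℕ) (t : List Bool → Option (List Bool)) (hr : r ≤ n) :
    (∀ y ∉ Region n, setK B n r t y = B y) ∧ Marked (setK B n r t) n ∧ rr (setK B n r t) n = r ∧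
    {y | B y ≠ setK B n r t y}.Finite ∧
    {y | B y ≠ setK B n r t y}.ncard ≤ 2 * n + 3 * n * 2 ^ r ∧
    (∀ w u : List Bool, w.length = r → t w = some u → u.length = n → AnsK (setK B n r t) n w u) ∧
    (CleanK B n → ∀ w u : List Bool, w.length = r → AnsK (setK B n r t) n w u → t w = some u) ∧
    ∀ (t' : List Bool → Option (List Bool)) (y : List Bool),
      setK B n r t y ≠ setK B n r t' y → ∃ (w u : List Bool) (j : ℕ), w.length = r ∧
        u.length = n ∧ y = bl n w u j ∧ (t w = some u ∧ t' w ≠ some u ∨ t' w = some u ∧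
          t w ≠ some u) :=
  ⟨fun y hy => setK_off B n r t y hy, marked_setK B n r t, rr_setK B t hr, setK_finite B n r t,
    setK_card B n r t, fun w u hw ht hu => ansK_of B n r t w u hw ht hu,
    fun hcl w u hw h => of_ansK hr hcl hw h, fun t' y hy => setK_two B n r t t' y hy⟩

/-- local agreement -/
theorem witK_congr {A A' : Oracle} {n r : ℕ} (hr : r ≤ n)
    (h : ∀ y : List Bool, y.length ≤ 6 * n + 3 → A y = A' y) {w : List Bool} (hw : w.length = r) :
    WitK A n w ↔ WitK A' n w := by
  unfold WitK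
  apply exists_congr
  intro u
  unfold AnsK
  refine and_congr_right fun hu => forall₂_congr fun j hj => ?_
  rw [h (bl n w u j) (by unfold bl; rw [length_reg]; simp; omega),
    h (ky n j) (by unfold ky; rw [length_reg]; simp; omega)]

open Classical in
theorem task_clean (hC : S_CORE) (M : Alg) (P : Polynomial ℕ) : ∃ cost b : Polynomial ℕ,
    ∀ᶠ n : ℕ in atTop, ∀ B : Oracle,
    CleanK B n → ∃ B' : Oracle, (∀ y ∉ Region n, B' y = B y) ∧ {y | B y ≠ B' y}.Finite ∧
      {y | B y ≠ B' y}.ncard ≤ cost.eval n ∧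
      ∀ B'' : Oracle, (∀ y : List Bool, y.length ≤ b.eval n → B'' y = B' y) → WMK M P n B'' := by
  have hS := settK
  obtain ⟨qb, hqb⟩ := Pool.Agent.W900.SP.out_local M
  refine ⟨Polynomial.C 2 * Polynomial.X + Polynomial.C 18 * Polynomial.X * (P + Polynomial.C 2),
    qb.comp (Polynomial.C 4 * P + Polynomial.X + Polynomial.C 2) +
      Polynomial.C 6 * Polynomial.X + Polynomial.C 3, ?_⟩
  have e1 := H529R3.Lev.poly_le_two_pow (Polynomial.C 72 *
    (M.p.comp (Polynomial.C 4 * P + Polynomial.X + Polynomial.C 2)) * (P + Polynomial.C 2))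
  have e2 := H529R3.Lev.poly_le_two_pow (Polynomial.C 6 * P + Polynomial.C 13)
  filter_upwards [e1, e2] with n h1 h2 B hB
  simp only [Polynomial.eval_add, Polynomial.eval_mul, Polynomial.eval_C, Polynomial.eval_X,
    Polynomial.eval_comp] at h1 h2 ⊢
  unfold WMK
  generalize P.eval n = N at h1 h2 ⊢
  set q := M.p.eval (4 * N + n + 2) with hq
  obtain ⟨r, hr1, hr2⟩ : ∃ r, 3 * (N + 2) ≤ 2 ^ r ∧ 2 ^ r ≤ 6 * (N + 2) := by
    refine ⟨Nat.log 2 (3 * (N + 2)) + 1, (Nat.lt_pow_succ_log_self (by norm_num) _).le, ?_⟩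
    rw [pow_succ]
    have := Nat.pow_log_le_self 2 (show 3 * (N + 2) ≠ 0 by omega)
    omega
  have hrn : r < n := by
    by_contra h
    push Not at h
    have := Nat.pow_le_pow_right (show 0 < 2 by norm_num) h
    omega
  have hrn' := hrn.le
  -- the questions
  have hU : ∀ (y : List Bool) (t : (Fin r → Bool) → Option (Fin n → Bool)) (ω : Fin N → Bool),
      ∃ U : Finset (List Bool), U.card ≤ M.p.eval (inp n y ω).length ∧
        ∀ A' : Oracle, (∀ u ∈ U, A' u = setK B n r (tl t) u) →
          M.out A' (inp n y ω) = M.out (setK B n r (tl t)) (inp n y ω) :=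
    fun y t ω => run_local M (setK B n r (tl t)) (inp n y ω) (M.p.eval (inp n y ω).length) []
  choose U hU1 hU2 using hU
  obtain ⟨V, hV1, hV2⟩ := exists_short N
  set VV : Finset (List Bool) := V.filter (fun y => y.length ≤ N) with hVV
  have hVVm : ∀ y : List Bool, y.length ≤ N → y ∈ VV := fun y hy =>
    Finset.mem_filter.2 ⟨hV2 y hy, hy⟩
  have hVVl : ∀ y ∈ VV, y.length ≤ N := fun y hy => (Finset.mem_filter.1 hy).2
  let hits : {y // y ∈ VV} → ((Fin r → Bool) → Option (Fin n → Bool)) → (Fin N → Bool) →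
      Finset ((Fin r → Bool) × (Fin n → Bool)) := fun y t ω =>
    Finset.univ.filter (fun p => ∃ j, bl n (List.ofFn p.1) (List.ofFn p.2) j ∈ U y.1 t ω)
  have hhits : ∀ y t ω, (hits y t ω).card ≤ q := by
    intro y t ω
    have h3 : (hits y t ω).card ≤ (U y.1 t ω).card := by
      have h4 : ∀ p : (Fin r → Bool) × (Fin n → Bool), ∃ j, p ∈ hits y t ω →
          bl n (List.ofFn p.1) (List.ofFn p.2) j ∈ U y.1 t ω := by
        intro p
        by_cases hp : p ∈ hits y t ω
        · obtain ⟨j, hj⟩ := (Finset.mem_filter.1 hp).2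
          exact ⟨j, fun _ => hj⟩
        · exact ⟨0, fun h => absurd h hp⟩
      choose J hJ using h4
      refine Finset.card_le_card_of_injOn
        (fun p => bl n (List.ofFn p.1) (List.ofFn p.2) (J p)) ?_ ?_
      · intro p hp
        exact hJ p hp
      · intro p _ p' _ h
        obtain ⟨h5, h6⟩ := bl_inj h
        exact Prod.ext h5 h6
    refine h3.trans ((hU1 _ _ _).trans ?_)
    exact poly_mono _ (inp_len n y.1 ω (hVVl _ y.2))
  obtain ⟨s, hs⟩ := hC r n q (N + 1) (Fin N → Bool) {y // y ∈ VV} hits hhits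
    (by
      rw [Fintype.card_coe]
      exact (Finset.card_filter_le _ _).trans hV1)
    (by
      calc 12 * q * 2 ^ r ≤ 12 * q * (6 * (N + 2)) := Nat.mul_le_mul_left _ hr2
        _ = 72 * q * (N + 2) := by ring
        _ ≤ 2 ^ n := h1)
    (by omega)
  have hcost : ∀ t : List Bool → Option (List Bool),
      {y | B y ≠ setK B n r t y}.ncard ≤ 2 * n + 18 * n * (N + 2) := by
    intro t
    refine ((hS B n r t hrn').2.2.2.2.1).trans ?_
    calc 2 * n + 3 * n * 2 ^ r ≤ 2 * n + 3 * n * (6 * (N + 2)) :=
          Nat.add_le_add_left (Nat.mul_le_mul_left _ hr2) _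
      _ = 2 * n + 18 * n * (N + 2) := by ring
  -- consequences of local agreement
  have hloc : ∀ (t : List Bool → Option (List Bool)) (B'' : Oracle),
      (∀ y : List Bool, y.length ≤ qb.eval (4 * N + n + 2) + 6 * n + 3 →
        B'' y = setK B n r t y) →
      Marked B'' n ∧ rr B'' n = r ∧ (∀ w : List Bool, w.length = r →
        (WitK B'' n w ↔ WitK (setK B n r t) n w)) ∧
      ∀ (y : List Bool) (ω : Fin N → Bool), y.length ≤ N →
        M.out B'' (inp n y ω) = M.out (setK B n r t) (inp n y ω) := by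
    intro t B'' h
    have h3 : ∀ j < 2 * n, B'' (Pool.Agent.W900.RB.mk n j) = setK B n r t (Pool.Agent.W900.RB.mk n j) := by
      intro j hj
      apply h
      unfold Pool.Agent.W900.RB.mk
      rw [length_reg]
      simp
      omega
    refine ⟨(marked_congr h3).2 (hS B n r t hrn').2.1, (rr_congr h3).trans (hS B n r t hrn').2.2.1,
      ?_, ?_⟩
    · intro w hw
      exact witK_congr hrn' (fun y hy => h y (by omega)) hw
    · intro y ω hy
      apply hqb
      intro z hz
      apply h
      have h4 := poly_mono qb (inp_len n y ω hy)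
      omega
  by_cases hcase : ∀ y : List Bool, y.length ≤ N →
      3 * Nat.card {ω : Fin N → Bool //
        M.out (setK B n r (tl fun w => some (s w))) (inp n y ω) = some [true]} < 2 * 2 ^ N
  · refine ⟨setK B n r (tl fun w => some (s w)), (hS B n r _ hrn').1, (hS B n r _ hrn').2.2.2.1,
      hcost _, ?_⟩
    intro B'' hB''
    obtain ⟨g1, g2, g3, g4⟩ := hloc _ B'' hB''
    refine ⟨r, hrn, g1, g2, Or.inl ⟨?_, ?_⟩⟩
    · intro w hw
      rw [g3 w hw]
      obtain ⟨v, rfl⟩ := exists_ofFn w hw
      refine ⟨List.ofFn (s v), (hS B n r _ hrn').2.2.2.2.2.1 _ _ hw ?_ (by simp)⟩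
      rw [tl_ofFn]
      rfl
    · intro y hy
      have h3 := hcase y hy
      have h4 : ∀ ω : Fin N → Bool, M.out B'' (inp n y ω) =
          M.out (setK B n r (tl fun w => some (s w))) (inp n y ω) := fun ω => g4 y ω hy
      simp only [← h4] at h3
      exact h3
  · push Not at hcase
    obtain ⟨y, hy, hacc⟩ := hcase
    obtain ⟨D, hD1, hD2⟩ := hs ⟨y, hVVm y hy⟩
    set tD : (Fin r → Bool) → Option (Fin n → Bool) := fun w => if w ∈ D then some (s w) else none
      with htD
    have htD1 : ∀ w ∈ D, tD w = some (s w) := fun w hw => if_pos hw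
    have htD2 : ∀ w, w ∉ D → tD w = none := fun w hw => if_neg hw
    refine ⟨setK B n r (tl tD), (hS B n r _ hrn').1, (hS B n r _ hrn').2.2.2.1,
      hcost _, ?_⟩
    intro B'' hB''
    obtain ⟨g1, g2, g3, g4⟩ := hloc _ B'' hB''
    refine ⟨r, hrn, g1, g2, Or.inr ⟨?_, y, hy, ?_⟩⟩
    · refine le_trans (Nat.mul_le_mul_left 3 ?_) hD1
      rw [Nat.card_eq_fintype_card, Fintype.card_subtype]
      apply Finset.card_le_card
      intro w hw
      have h3 := (Finset.mem_filter.1 hw).2
      rw [g3 _ (by simp)] at h3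
      obtain ⟨u, hu⟩ := h3
      have h4 := (hS B n r (tl tD) hrn').2.2.2.2.2.2.1 hB (List.ofFn w) u (by simp) hu
      rw [tl_ofFn] at h4
      by_contra h5
      rw [htD2 w h5] at h4
      simp at h4
    · have h4 : ∀ ω : Fin N → Bool, M.out B'' (inp n y ω) =
          M.out (setK B n r (tl tD)) (inp n y ω) := fun ω => g4 y ω hy
      have h5 : ∀ ω : Fin N → Bool, (¬ ∃ w ∉ D, (w, s w) ∈ hits ⟨y, hVVm y hy⟩ tD ω) →
          M.out (setK B n r (tl fun w => some (s w))) (inp n y ω) =
          M.out (setK B n r (tl tD)) (inp n y ω) := by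
        intro ω hω
        apply hU2
        intro u hu
        by_contra h6
        obtain ⟨w, v, j, h7, h8, h9, h10⟩ := (hS B n r (tl fun w => some (s w)) hrn').2.2.2.2.2.2.2
          (tl tD) u h6
        obtain ⟨w, rfl⟩ := exists_ofFn w h7
        obtain ⟨v, rfl⟩ := exists_ofFn v h8
        rw [tl_ofFn, tl_ofFn] at h10
        have h11 : w ∉ D := by
          intro h12
          rw [htD1 w h12] at h10
          rcases h10 with h10 | h10
          · exact h10.2 h10.1
          · exact h10.2 h10.1
        rw [htD2 w h11] at h10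
        have h12 : s w = v := by
          rcases h10 with h10 | h10
          · exact List.ofFn_injective (Option.some.inj h10.1)
          · simp at h10
        apply hω
        refine ⟨w, h11, ?_⟩
        rw [h12]
        refine Finset.mem_filter.2 ⟨Finset.mem_univ _, j, ?_⟩
        rw [← h9]
        exact hu
      rw [Nat.card_eq_fintype_card, Fintype.card_subtype] at hacc
      have h6 : Nat.card {ω : Fin N → Bool // M.out B''
          (pairBits (List.ofFn ω) (pairBits y (List.replicate n true))) = some [true]} =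
          (Finset.univ.filter (fun ω : Fin N → Bool =>
            M.out (setK B n r (tl tD)) (inp n y ω) = some [true])).card := by
        rw [Nat.card_eq_fintype_card, Fintype.card_subtype]
        congr 1
        ext ω
        simp only [Finset.mem_filter, Finset.mem_univ, true_and]
        rw [← h4]
        rfl
      rw [h6]
      have h7 : (Finset.univ.filter (fun ω : Fin N → Bool =>
            M.out (setK B n r (tl fun w => some (s w))) (inp n y ω) = some [true])) ⊆
          (Finset.univ.filter (fun ω : Fin N → Bool =>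
            M.out (setK B n r (tl tD)) (inp n y ω) = some [true])) ∪
          (Finset.univ.filter (fun ω : Fin N → Bool =>
            ∃ w ∉ D, (w, s w) ∈ hits ⟨y, hVVm y hy⟩ tD ω)) := by
        intro ω hω
        rw [Finset.mem_union]
        by_cases h8 : ∃ w ∉ D, (w, s w) ∈ hits ⟨y, hVVm y hy⟩ tD ω
        · right
          exact Finset.mem_filter.2 ⟨Finset.mem_univ _, h8⟩
        · left
          refine Finset.mem_filter.2 ⟨Finset.mem_univ _, ?_⟩
          rw [← h5 ω h8]
          exact (Finset.mem_filter.1 hω).2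
      have h8 := (Finset.card_le_card h7).trans (Finset.card_union_le _ _)
      have h9 : Fintype.card (Fin N → Bool) = 2 ^ N := by simp
      rw [h9] at hD2
      have h10 : 0 < 2 ^ N := by positivity
      omega

/-- **The stage, for an arbitrary oracle.** -/
theorem taskK (M : Alg) (P : Polynomial ℕ) : ∃ cost b : Polynomial ℕ,
    ∀ᶠ n : ℕ in atTop, ∀ B : Oracle,
    ∃ B' : Oracle, (∀ y ∉ Region n, B' y = B y) ∧ {y | B y ≠ B' y}.Finite ∧
      {y | B y ≠ B' y}.ncard ≤ cost.eval n ∧
      ∀ B'' : Oracle, (∀ y : List Bool, y.length ≤ b.eval n → B'' y = B' y) → WMK M P n B'' := by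
  obtain ⟨cost, b, h⟩ := task_clean Pool.Agent.W585.AMC.task M P
  refine ⟨Polynomial.C 3 * Polynomial.X + cost, b, ?_⟩
  filter_upwards [h, eventually_ge_atTop 3] with n h1 h2 B
  obtain ⟨κ, hκ⟩ := exists_key B h2
  obtain ⟨B', h3, h4, h5, h6⟩ := h1 _ hκ
  have hsub : {y | B y ≠ B' y} ⊆ {y | B y ≠ keyO B n κ y} ∪ {y | keyO B n κ y ≠ B' y} := by
    intro y hy
    by_cases h7 : B y = keyO B n κ y
    · right
      intro h8
      exact hy (h7.trans h8)
    · left
      exact h7
  refine ⟨B', fun y hy => (h3 y hy).trans (keyO_off B κ hy),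
    ((keyO_finite B n κ).union h4).subset hsub, ?_, h6⟩
  refine (Set.ncard_le_ncard hsub ((keyO_finite B n κ).union h4)).trans ?_
  refine (Set.ncard_union_le _ _).trans ?_
  simp only [Polynomial.eval_add, Polynomial.eval_mul, Polynomial.eval_C, Polynomial.eval_X]
  exact Nat.add_le_add (keyO_card B n κ) h5

end Pool.Agent.TH707.EA
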